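import Mathlib
import Pool.Agent.W662.KKS.Stmts3
import Pool.Agent.W459.KKS.Cut
import Pool.Agent.Helper278.Factor

/-!
# The reduced algebra of a II₁ factor is a II₁ factor
-/

set_option autoImplicit false
set_option linter.unusedSectionVars false
set_option linter.deprecated false

open scoped InnerProductSpace

namespace Pool.Agent.W407.KKS

open Pool.Agent.W662.KKS Pool.Agent.Helper278 Pool.Agent.W459.KKS

section reindex

variable {K : Type} [NormedAddCommGroup K]

/-- square summable families can be indexed by `ℕ` -/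
lemma reindex {ι : Type} (f : ι → K) (hf : Summable (fun i => ‖f i‖ ^ 2)) :
    ∃ g : ℕ → K, Summable (fun n => ‖g n‖ ^ 2) ∧
      ∀ φ : K → ℂ, φ 0 = 0 → ∑' n, φ (g n) = ∑' i, φ (f i) := by
  classical
  have hc : (Function.support (fun i => ‖f i‖ ^ 2)).Countable := hf.countable_support
  set T := Function.support (fun i => ‖f i‖ ^ 2) with hT
  have : Countable T := hc.to_subtype
  obtain ⟨e, he⟩ := exists_injective_nat T
  set g : ℕ → K := Function.extend e (fun s : T => f s) (fun _ => 0) with hg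
  have hge : ∀ s : T, g (e s) = f s := fun s => he.extend_apply _ _ s
  have hg0 : ∀ n, n ∉ Set.range e → g n = 0 := by
    intro n hn
    rw [hg, Function.extend_apply' _ _ _ (by simpa using hn)]
  have hfT : ∀ i, i ∉ Set.range (Subtype.val : T → ι) → f i = 0 := by
    intro i hi
    rw [Subtype.range_coe] at hi
    rw [hT, Function.mem_support, not_not] at hi
    simpa using hi
  refine ⟨g, ?_, ?_⟩
  · rw [← he.summable_iff (f := fun n => ‖g n‖ ^ 2)]
    · have h1 : (fun n => ‖g n‖ ^ 2) ∘ e = (fun i => ‖f i‖ ^ 2) ∘ (Subtype.val : T → ι) := by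
        funext s
        simp only [Function.comp_apply, hge]
      rw [h1]
      exact hf.comp_injective Subtype.val_injective
    · intro n hn
      simp [hg0 n hn]
  · intro φ hφ
    rw [← he.tsum_eq (f := fun n => φ (g n)), ← Subtype.val_injective.tsum_eq (f := fun i => φ (f i))]
    · refine tsum_congr (fun s => ?_)
      rw [hge]
    · intro i hi
      by_contra h
      rw [Function.mem_support] at hi
      exact hi (by rw [hfT i h, hφ])
    · intro n hn
      by_contra h
      rw [Function.mem_support] at hn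
      exact hn (by rw [hg0 n h, hφ])

end reindex

section fam

variable {H : Type} [NormedAddCommGroup H] [InnerProductSpace ℂ H] [CompleteSpace H]

/-- families of partial isometries of `R` with initial projections below `e` and orthogonal
ranges -/
structure PF (R : VonNeumannAlgebra H) (e : H →L[ℂ] H) (F : Set (H →L[ℂ] H)) : Prop where
  mem : ∀ v ∈ F, v ∈ R
  pi : ∀ v ∈ F, v * (star v * v) = v
  ve : ∀ v ∈ F, v * e = v
  ne : ∀ v ∈ F, v ≠ 0
  orth : ∀ v ∈ F, ∀ w ∈ F, v ≠ w → star v * w = 0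

lemma exists_max (R : VonNeumannAlgebra H) (e : H →L[ℂ] H) :
    ∃ F, PF R e F ∧ ∀ F', PF R e F' → F ⊆ F' → F' = F := by
  obtain ⟨F, hF⟩ := zorn_subset {F | PF R e F} (by
    intro c hc hch
    refine ⟨⋃₀ c, ⟨?_, ?_, ?_, ?_, ?_⟩, fun s hs => Set.subset_sUnion_of_mem hs⟩
    · rintro v ⟨s, hs, hv⟩; exact (hc hs).mem v hv
    · rintro v ⟨s, hs, hv⟩; exact (hc hs).pi v hv
    · rintro v ⟨s, hs, hv⟩; exact (hc hs).ve v hv
    · rintro v ⟨s, hs, hv⟩; exact (hc hs).ne v hv
    · rintro v ⟨s, hs, hv⟩ w ⟨t, ht, hw⟩ hvw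
      rcases hch.total hs ht with h | h
      · exact (hc ht).orth v (h hv) w hw hvw
      · exact (hc hs).orth v hv w (h hw) hvw)
  refine ⟨F, hF.prop, fun F' hF' h => ?_⟩
  exact (hF.eq_of_subset hF' h).symm

/-- a nonzero corner of a factor contains a nonzero partial isometry -/
lemma exists_pi (R : VonNeumannAlgebra H) (hR : HasTrivialCenter R) (g e : H →L[ℂ] H)
    (hg : g ∈ R) (he : e ∈ R) (hgs : star g = g) (hgg : g * g = g) (hes : star e = e)
    (hee : e * e = e) (hg0 : g ≠ 0) (he0 : e ≠ 0) :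
    ∃ w ∈ R, w * (star w * w) = w ∧ g * w = w ∧ w * e = w ∧ w ≠ 0 := by
  obtain ⟨w, hw, hn, hgwe, hext⟩ := exists_extreme_corner R e g
  have hpi := extreme_partial' R hw hee hgg hes hn hgwe hext
  refine ⟨w, hw, hpi, ?_, ?_, ?_⟩
  · calc g * w = g * (g * w * e) := by rw [hgwe]
      _ = (g * g) * w * e := by noncomm_ring
      _ = w := by rw [hgg, hgwe]
  · calc w * e = g * w * e * e := by rw [hgwe]
      _ = g * w * (e * e) := by rw [mul_assoc (g * w)]
      _ = w := by rw [hee, hgwe]
  · intro h0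
    have h1 : ∀ y ∈ R, g * y * e = 0 := by
      intro y hy
      have := extreme_corner' R hw he hg hes hee hgg hgs hgwe hpi hext y hy
      rw [h0] at this
      simpa using this
    rcases factor_corner R hR g e hg he h1 with h | h
    · exact hg0 h
    · exact he0 h

/-- the commutant of a factor is a factor -/
lemma center_commutant (M : VonNeumannAlgebra H) (hM : HasTrivialCenter M) :
    HasTrivialCenter M.commutant := by
  intro z hz hcz
  refine hM z (mem_of_comm M z fun g hg => (hcz g hg).symm) ?_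
  intro x hx
  exact (((mem_comm M z).1 hz) x hx).symm

/-- the decomposition of the identity -/
lemma decomp (M : VonNeumannAlgebra H) (hM : HasTrivialCenter M) (e : H →L[ℂ] H)
    (he : e ∈ M.commutant) (hes : star e = e) (hee : e * e = e) (he0 : e ≠ 0) :
    ∃ F, PF M.commutant e F ∧ ∀ η : H, HasSum (fun v : F => (v : H →L[ℂ] H) ((star (v : H →L[ℂ] H)) η)) η ∧
      HasSum (fun v : F => ‖(star (v : H →L[ℂ] H)) η‖ ^ 2) (‖η‖ ^ 2) := by
  classical
  obtain ⟨F, hF, hmax⟩ := exists_max M.commutant e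
  refine ⟨F, hF, ?_⟩
  -- the pieces
  have hproj : ∀ v : F, ∀ h : H, (v : H →L[ℂ] H) ((star (v : H →L[ℂ] H)) ((v : H →L[ℂ] H) h)) =
      (v : H →L[ℂ] H) h := fun v h =>
    congrArg (fun T : H →L[ℂ] H => T h) (hF.pi v v.2)
  have horth : ∀ v w : F, v ≠ w → ∀ h : H, (star (v : H →L[ℂ] H)) ((w : H →L[ℂ] H) h) = 0 := by
    intro v w hvw h
    exact congrArg (fun T : H →L[ℂ] H => T h) (hF.orth v v.2 w w.2 (fun h => hvw (Subtype.ext h)))
  let G : F → Submodule ℂ H := fun v =>
    (1 - (v : H →L[ℂ] H) * star (v : H →L[ℂ] H) : H →L[ℂ] H).ker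
  have hG : ∀ v : F, ∀ h : H, h ∈ G v ↔ (v : H →L[ℂ] H) ((star (v : H →L[ℂ] H)) h) = h := by
    intro v h
    show (1 - (v : H →L[ℂ] H) * star (v : H →L[ℂ] H) : H →L[ℂ] H) h = 0 ↔ _
    show h - (v : H →L[ℂ] H) ((star (v : H →L[ℂ] H)) h) = 0 ↔ _
    rw [sub_eq_zero]
    exact eq_comm
  have : ∀ v, CompleteSpace (G v) := fun v =>
    (ContinuousLinearMap.isClosed_ker _).completeSpace_coe
  have hGr : ∀ v : F, ∀ h : H, (v : H →L[ℂ] H) h ∈ G v := fun v h => (hG v _).2 (hproj v h)
  have hGorth : ∀ v w : F, v ≠ w → ∀ a ∈ G v, ∀ b ∈ G w, ⟪a, b⟫_ℂ = 0 := by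
    intro v w hvw a ha b hb
    rw [← (hG v a).1 ha, ← (hG w b).1 hb, ← ContinuousLinearMap.adjoint_inner_right,
      ← ContinuousLinearMap.star_eq_adjoint, horth v w hvw, inner_zero_right]
  have hOF : OrthogonalFamily ℂ (fun v => G v) fun v => (G v).subtypeₗᵢ := by
    intro v w hvw a b
    exact hGorth v w hvw a a.2 b b.2
  -- totality
  set L : Submodule ℂ H := (⨆ v, G v)ᗮ with hL
  have hLmem : ∀ h ∈ L, ∀ v : F, (star (v : H →L[ℂ] H)) h = 0 := by
    intro h hh v
    have h1 : ⟪(v : H →L[ℂ] H) ((star (v : H →L[ℂ] H)) h), h⟫_ℂ = 0 :=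
      (Submodule.mem_orthogonal _ _).1 hh _
        (Submodule.mem_iSup_of_mem v (hGr v _))
    rw [← ContinuousLinearMap.adjoint_inner_right, ← ContinuousLinearMap.star_eq_adjoint] at h1
    exact inner_self_eq_zero.1 h1
  have hLmem' : ∀ h : H, (∀ v : F, (star (v : H →L[ℂ] H)) h = 0) → h ∈ L := by
    intro h hh
    rw [hL, Submodule.mem_orthogonal]
    intro u hu
    have h2 : (⨆ v, G v) ≤ (Submodule.span ℂ {h})ᗮ := by
      apply iSup_le
      intro v a ha
      rw [Submodule.mem_orthogonal_singleton_iff_inner_left]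
      rw [← (hG v a).1 ha, ← ContinuousLinearMap.adjoint_inner_right,
        ← ContinuousLinearMap.star_eq_adjoint, hh v, inner_zero_right]
    exact (Submodule.mem_orthogonal_singleton_iff_inner_left).1 (h2 hu)
  have hLc : IsClosed (L : Set H) := Submodule.isClosed_orthogonal _
  have : CompleteSpace L := hLc.completeSpace_coe
  have hLinv : ∀ x ∈ M, ∀ h ∈ L, x h ∈ L := by
    intro x hx h hh
    apply hLmem'
    intro v
    have h1 : star (v : H →L[ℂ] H) ∈ M.commutant := star_mem (hF.mem v v.2)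
    have h2 : (star (v : H →L[ℂ] H)) (x h) = x ((star (v : H →L[ℂ] H)) h) :=
      congrArg (fun T : H →L[ℂ] H => T h) ((mem_comm M _).1 h1 x hx).symm
    rw [h2, hLmem h hh v, map_zero]
  set g : H →L[ℂ] H := L.starProjection with hg
  have hgR : g ∈ M.commutant := by
    rw [mem_comm]
    intro x hx
    exact (commute_starProjection L x (hLinv x hx) (hLinv _ (star_mem hx))).symm
  have hgs : star g = g := (isSelfAdjoint_starProjection L)
  have hgg : g * g = g := L.isIdempotentElem_starProjection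
  have hbot : L = ⊥ := by
    by_contra hne
    have hg0 : g ≠ 0 := by
      intro h0
      apply hne
      rw [Submodule.eq_bot_iff]
      intro h hh
      have h1 : g h = h := Submodule.starProjection_eq_self_iff.2 hh
      rw [h0] at h1
      exact h1.symm
    obtain ⟨w, hw, hpi, hgw, hwe, hw0⟩ := exists_pi M.commutant (center_commutant M hM) g e hgR he
      hgs hgg hes hee hg0 he0
    have hvw : ∀ v ∈ F, star v * w = 0 := by
      intro v hv
      ext h
      have h1 : w h ∈ L := by
        have h2 : g (w h) = w h := congrArg (fun T : H →L[ℂ] H => T h) hgw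
        rw [← h2]
        exact L.starProjection_apply_mem _
      exact hLmem _ h1 ⟨v, hv⟩
    have hwF : w ∉ F := by
      intro hwF
      have h1 := hvw w hwF
      rw [h1, mul_zero] at hpi
      exact hw0 hpi.symm
    have hnew : PF M.commutant e (insert w F) := by
      refine ⟨?_, ?_, ?_, ?_, ?_⟩
      · rintro v (rfl | hv)
        · exact hw
        · exact hF.mem v hv
      · rintro v (rfl | hv)
        · exact hpi
        · exact hF.pi v hv
      · rintro v (rfl | hv)
        · exact hwe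
        · exact hF.ve v hv
      · rintro v (rfl | hv)
        · exact hw0
        · exact hF.ne v hv
      · rintro v (rfl | hv) u (rfl | hu) hvu
        · exact absurd rfl hvu
        · have := congrArg star (hvw u hu)
          rwa [star_mul, star_star, star_zero] at this
        · exact hvw v hv
        · exact hF.orth v hv u hu hvu
    have := hmax _ hnew (Set.subset_insert w F)
    exact hwF (this ▸ Set.mem_insert w F)
  have htot : ⊤ ≤ (⨆ v, G v).topologicalClosure := by
    rw [top_le_iff, Submodule.topologicalClosure_eq_top_iff]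
    exact hbot
  have hHS : IsHilbertSum ℂ (fun v => G v) fun v => (G v).subtypeₗᵢ :=
    IsHilbertSum.mkInternal G hOF htot
  intro η
  set w := hHS.linearIsometryEquiv η with hw
  have hsum : HasSum (fun v => ((w v : G v) : H)) η := by
    have := hHS.hasSum_linearIsometryEquiv_symm w
    rw [hw, LinearIsometryEquiv.symm_apply_apply] at this
    exact this
  have hwv : ∀ v : F, (star (v : H →L[ℂ] H)) η = (star (v : H →L[ℂ] H)) (w v : H) := by
    intro v
    have h1 := hsum.mapL (star (v : H →L[ℂ] H))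
    have h2 := hasSum_single (f := fun u => (star (v : H →L[ℂ] H)) ((w u : G u) : H)) v (by
      intro u hu
      have h3 : (u : H →L[ℂ] H) ((star (u : H →L[ℂ] H)) (w u : H)) = (w u : H) :=
        (hG u _).1 (w u).2
      rw [← h3]
      exact horth v u (fun h => hu h.symm) _)
    exact h1.unique h2
  have hwv' : ∀ v : F, (v : H →L[ℂ] H) ((star (v : H →L[ℂ] H)) η) = (w v : H) := by
    intro v
    rw [hwv v]
    exact (hG v _).1 (w v).2
  have hS1 : HasSum (fun v : F => (v : H →L[ℂ] H) ((star (v : H →L[ℂ] H)) η)) η := by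
    have : (fun v : F => (v : H →L[ℂ] H) ((star (v : H →L[ℂ] H)) η)) = fun v => ((w v : G v) : H) :=
      funext hwv'
    rw [this]; exact hsum
  refine ⟨hS1, ?_⟩
  -- norms
  have h5 := hS1.mapL (innerSL ℂ η)
  have h6 : ∀ v : F, innerSL ℂ η ((v : H →L[ℂ] H) ((star (v : H →L[ℂ] H)) η)) =
      ((‖(star (v : H →L[ℂ] H)) η‖ ^ 2 : ℝ) : ℂ) := by
    intro v
    rw [innerSL_apply_apply]
    rw [← ContinuousLinearMap.adjoint_inner_left, ← ContinuousLinearMap.star_eq_adjoint,
      inner_self_eq_norm_sq_to_K]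
    norm_cast
  have h7 : innerSL ℂ η η = ((‖η‖ ^ 2 : ℝ) : ℂ) := by
    rw [innerSL_apply_apply, inner_self_eq_norm_sq_to_K]
    norm_cast
  rw [h7] at h5
  have h8 : HasSum (fun v : F => ((‖(star (v : H →L[ℂ] H)) η‖ ^ 2 : ℝ) : ℂ)) ((‖η‖ ^ 2 : ℝ) : ℂ) := by
    have h9 : (fun v : F => ((‖(star (v : H →L[ℂ] H)) η‖ ^ 2 : ℝ) : ℂ)) =
        fun v : F => innerSL ℂ η ((v : H →L[ℂ] H) ((star (v : H →L[ℂ] H)) η)) :=
      funext fun v => (h6 v).symm
    rw [h9]
    exact h5
  exact_mod_cast h8

end fam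

theorem cutn : S_CUTN := by
  intro H _ _ _ M τ hτ K _ _ _ V M₁ θ hV hθ
  classical
  have hsurj : ∀ z : Elt M₁, ∃ x : Elt M, θ x = z := θ.surjective
  -- V* V = 1
  have hVin : ∀ a b : K, ⟪V a, V b⟫_ℂ = ⟪a, b⟫_ℂ := by
    let V' : K →ₗᵢ[ℂ] H := ⟨V.toLinearMap, hV⟩
    intro a b
    exact V'.inner_map_map a b
  have hVV : ∀ k, ContinuousLinearMap.adjoint V (V k) = k := by
    intro k
    apply ext_inner_left ℂ
    intro a
    rw [ContinuousLinearMap.adjoint_inner_right, hVin]
  set e : H →L[ℂ] H := V ∘L ContinuousLinearMap.adjoint V with he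
  have hev : ∀ h, e h = V (ContinuousLinearMap.adjoint V h) := fun h => rfl
  have heV : ∀ k, e (V k) = V k := by
    intro k
    rw [hev, hVV]
  have hee : e * e = e := by
    ext h
    show e (e h) = e h
    rw [hev h, heV]
  have hes : star e = e := by
    rw [ContinuousLinearMap.star_eq_adjoint, he, ContinuousLinearMap.adjoint_comp,
      ContinuousLinearMap.adjoint_adjoint]
  have hxV : ∀ x ∈ M, ∀ k, ∃ k', x (V k) = V k' := fun x hx k => ⟨_, (hθ ⟨x, hx⟩ k).symm⟩
  have heM : e ∈ M.commutant := by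
    rw [mem_comm]
    intro x hx
    have h1 : ∀ y ∈ M, e * (y * e) = y * e := by
      intro y hy
      ext h
      show e (y (e h)) = y (e h)
      rw [hev h]
      obtain ⟨k', hk'⟩ := hxV y hy (ContinuousLinearMap.adjoint V h)
      rw [hk', heV]
    have h2 := h1 x hx
    have h3 := congrArg star (h1 (star x) (star_mem hx))
    rw [star_mul, star_mul, star_star, hes] at h3
    -- e * x * e = e * x
    calc x * e = e * (x * e) := h2.symm
      _ = e * x * e := by rw [mul_assoc]
      _ = e * x := h3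
  have hinf1 : ¬ FiniteDimensional ℂ (Elt M₁) := by
    intro hfin
    apply hτ.infinite
    exact LinearEquiv.finiteDimensional (θ.toAlgEquiv.toLinearEquiv.symm)
  have he0 : e ≠ 0 := by
    intro h0
    apply hinf1
    have hK : ∀ k : K, k = 0 := by
      intro k
      have h1 := heV k
      rw [h0] at h1
      have h2 : ‖k‖ = 0 := by rw [← hV k, ← h1]; simp
      exact norm_eq_zero.1 h2
    have : Subsingleton (Elt M₁) := ⟨fun a b => Subtype.ext (by
      ext k
      rw [hK k, map_zero, map_zero])⟩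
    exact Module.Finite.of_finite (R := ℂ) (M := Elt M₁)
  obtain ⟨F, hF, hdec⟩ := decomp M hτ.center e heM hes hee he0
  constructor
  · intro z hz hcz
    obtain ⟨x, hx⟩ := hsurj ⟨z, hz⟩
    obtain ⟨c, hc⟩ := hτ.center x x.2 (by
      intro y hy
      have h1 : (⟨z, hz⟩ : Elt M₁) * θ ⟨y, hy⟩ = θ ⟨y, hy⟩ * ⟨z, hz⟩ :=
        Subtype.ext (hcz _ (θ ⟨y, hy⟩).2)
      rw [← hx, ← map_mul, ← map_mul] at h1
      exact congrArg Subtype.val (θ.injective h1))
    refine ⟨c, ?_⟩
    have h2 : x = c • (1 : Elt M) := Subtype.ext hc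
    rw [h2, map_smul, map_one] at hx
    exact (congrArg Subtype.val hx).symm
  · exact hinf1
  · constructor
    · show τ (θ.symm 1) = 1
      rw [map_one, hτ.trace.one]
    · intro a b
      show τ (θ.symm (a * b)) = τ (θ.symm (b * a))
      rw [map_mul, map_mul, hτ.trace.tracial]
    · intro a ha
      have ha' : τ (θ.symm (star a * a)) = 0 := ha
      rw [map_mul, map_star] at ha'
      have h1 := hτ.trace.faithful _ ha'
      have h2 : θ (θ.symm a) = a := θ.apply_symm_apply a
      rw [← h2, h1, map_zero]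
  · -- normality
    obtain ⟨η, hη, hτη⟩ := hτ.normal
    set f : ℕ × F → K := fun p => ContinuousLinearMap.adjoint V ((star (p.2 : H →L[ℂ] H)) (η p.1))
      with hf
    have hev' : ∀ p : ℕ × F, V (f p) = (star (p.2 : H →L[ℂ] H)) (η p.1) := by
      intro p
      have h1 : e * star (p.2 : H →L[ℂ] H) = star (p.2 : H →L[ℂ] H) := by
        have := congrArg star (hF.ve p.2 p.2.2)
        rwa [star_mul, hes] at this
      exact congrArg (fun T : H →L[ℂ] H => T (η p.1)) h1
    have hfn : ∀ p : ℕ × F, ‖f p‖ = ‖(star (p.2 : H →L[ℂ] H)) (η p.1)‖ := by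
      intro p
      rw [← hV, hev']
    have hfs : Summable (fun p : ℕ × F => ‖f p‖ ^ 2) := by
      rw [summable_prod_of_nonneg (fun p => by positivity)]
      constructor
      · intro k
        simp only [hfn]
        exact ((hdec (η k)).2).summable
      · simp only [hfn]
        have : (fun k => ∑' v : F, ‖(star (v : H →L[ℂ] H)) (η k)‖ ^ 2) = fun k => ‖η k‖ ^ 2 :=
          funext fun k => ((hdec (η k)).2).tsum_eq
        rw [this]
        exact hη
    obtain ⟨g, hg1, hg2⟩ := reindex f hfs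
    refine ⟨g, hg1, ?_⟩
    intro z
    set x : Elt M := θ.symm z with hx
    have hz : θ x = z := θ.apply_symm_apply z
    show τ x = _
    rw [hg2 (fun ζ => ⟪ζ, (z : K →L[ℂ] K) ζ⟫_ℂ) (by simp), hτη x]
    have hin : ∀ p : ℕ × F, ⟪f p, (z : K →L[ℂ] K) (f p)⟫_ℂ =
        ⟪(star (p.2 : H →L[ℂ] H)) (η p.1), (x : H →L[ℂ] H) ((star (p.2 : H →L[ℂ] H)) (η p.1))⟫_ℂ := by
      intro p
      rw [← hVin, ← hz, hθ x, hev']
    have hsumm : Summable (fun p : ℕ × F => ⟪f p, (z : K →L[ℂ] K) (f p)⟫_ℂ) := by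
      refine Summable.of_norm_bounded (g := fun p => ‖(z : K →L[ℂ] K)‖ * ‖f p‖ ^ 2)
        (hfs.mul_left _) ?_
      intro p
      calc ‖⟪f p, (z : K →L[ℂ] K) (f p)⟫_ℂ‖ ≤ ‖f p‖ * ‖(z : K →L[ℂ] K) (f p)‖ :=
            norm_inner_le_norm _ _
        _ ≤ ‖f p‖ * (‖(z : K →L[ℂ] K)‖ * ‖f p‖) :=
            mul_le_mul_of_nonneg_left ((z : K →L[ℂ] K).le_opNorm _) (norm_nonneg _)
        _ = ‖(z : K →L[ℂ] K)‖ * ‖f p‖ ^ 2 := by ring
    rw [hsumm.tsum_prod]
    refine tsum_congr (fun k => ?_)
    have h1 := ((hdec (η k)).1).mapL (x : H →L[ℂ] H)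
    have h2 := h1.mapL (innerSL ℂ (η k))
    rw [innerSL_apply_apply] at h2
    rw [← h2.tsum_eq]
    refine tsum_congr (fun v => ?_)
    rw [innerSL_apply_apply, hin (k, v)]
    have h3 : star (v : H →L[ℂ] H) ∈ M.commutant := star_mem (hF.mem v v.2)
    have h4 : (x : H →L[ℂ] H) ((v : H →L[ℂ] H) ((star (v : H →L[ℂ] H)) (η k))) =
        (v : H →L[ℂ] H) ((x : H →L[ℂ] H) ((star (v : H →L[ℂ] H)) (η k))) :=
      congrArg (fun T : H →L[ℂ] H => T ((star (v : H →L[ℂ] H)) (η k)))
        ((mem_comm M _).1 (hF.mem v v.2) x x.2)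
    rw [h4, ← ContinuousLinearMap.adjoint_inner_left, ← ContinuousLinearMap.star_eq_adjoint]

end Pool.Agent.W407.KKS
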