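import Mathlib
import Pool.Agent.W662.KKS.Stmts3
import Pool.Agent.W82.KKS.Trunc

/-!
# Little Grothendieck inequality for row-column contractions
-/

set_option autoImplicit false
set_option linter.unusedSectionVars false
set_option linter.deprecated false
set_option linter.unusedSimpArgs false

open scoped InnerProductSpace

namespace Pool.Agent.W407.KKS

open Pool.Agent.W662.KKS Pool.Agent.Helper278

/-! ### sums over lists -/

/-- the sum of `F` over a list -/
def sm {α : Type} (l : List α) (F : α → ℝ) : ℝ := (l.map F).sum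

section sm
variable {α β : Type}

@[simp] lemma sm_nil (F : α → ℝ) : sm [] F = 0 := rfl

@[simp] lemma sm_cons (a : α) (l : List α) (F : α → ℝ) : sm (a :: l) F = F a + sm l F := by
  simp [sm]

lemma sm_append (l l' : List α) (F : α → ℝ) : sm (l ++ l') F = sm l F + sm l' F := by
  simp [sm]

lemma sm_map (l : List α) (g : α → β) (F : β → ℝ) : sm (l.map g) F = sm l (fun a => F (g a)) := by
  simp [sm, Function.comp_def]

lemma sm_add (l : List α) (F G : α → ℝ) : sm l (fun a => F a + G a) = sm l F + sm l G := by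
  induction l with
  | nil => simp
  | cons a l ih => simp only [sm_cons, ih]; ring

lemma sm_mul (l : List α) (c : ℝ) (F : α → ℝ) : sm l (fun a => c * F a) = c * sm l F := by
  induction l with
  | nil => simp
  | cons a l ih => simp only [sm_cons, ih]; ring

lemma sm_const (l : List α) (c : ℝ) : sm l (fun _ => c) = l.length * c := by
  induction l with
  | nil => simp
  | cons a l ih => simp only [sm_cons, ih, List.length_cons]; push_cast; ring

lemma sm_mono (l : List α) {F G : α → ℝ} (h : ∀ a ∈ l, F a ≤ G a) : sm l F ≤ sm l G := by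
  induction l with
  | nil => simp
  | cons a l ih =>
    simp only [sm_cons]
    have h1 := h a (by simp)
    have h2 := ih (fun b hb => h b (by simp [hb]))
    linarith

lemma sm_nonneg (l : List α) {F : α → ℝ} (h : ∀ a, 0 ≤ F a) : 0 ≤ sm l F := by
  induction l with
  | nil => simp
  | cons a l ih => simp only [sm_cons]; have := h a; linarith

lemma sm_congr (l : List α) {F G : α → ℝ} (h : ∀ a, F a = G a) : sm l F = sm l G := by
  have : F = G := funext h
  rw [this]

end sm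

variable {H : Type} [NormedAddCommGroup H] [InnerProductSpace ℂ H] [CompleteSpace H]

lemma mapp (A B : H →L[ℂ] H) (v : H) : (A * B) v = A (B v) := rfl

lemma par (x b : H) : ‖x + b‖ ^ 2 + ‖x - b‖ ^ 2 = 2 * (‖x‖ ^ 2 + ‖b‖ ^ 2) := by
  have := parallelogram_law_with_norm ℂ x b
  nlinarith

lemma normI (b : H) : ‖Complex.I • b‖ = ‖b‖ := by
  rw [norm_smul, Complex.norm_I, one_mul]

/-- all sums `y + θ₁ a₁ + ... + θₙ aₙ` with fourth roots of unity -/
noncomputable def fam : List (H →L[ℂ] H) → (H →L[ℂ] H) → List (H →L[ℂ] H)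
  | [], y => [y]
  | a :: l, y => fam l (y + a) ++ fam l (y - a) ++ fam l (y + Complex.I • a) ++
      fam l (y - Complex.I • a)

lemma sm_fam_cons (a : H →L[ℂ] H) (l : List (H →L[ℂ] H)) (y : H →L[ℂ] H)
    (F : (H →L[ℂ] H) → ℝ) : sm (fam (a :: l) y) F = sm (fam l (y + a)) F + sm (fam l (y - a)) F +
      sm (fam l (y + Complex.I • a)) F + sm (fam l (y - Complex.I • a)) F := by
  simp only [fam, sm_append]

lemma fam_length (l : List (H →L[ℂ] H)) (y : H →L[ℂ] H) :
    ((fam l y).length : ℝ) = 4 ^ l.length := by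
  induction l generalizing y with
  | nil => simp [fam]
  | cons a l ih =>
    simp only [fam, List.length_append, List.length_cons]
    push_cast
    simp only [ih]
    ring

lemma fam_mem (M : VonNeumannAlgebra H) (l : List (H →L[ℂ] H)) (hl : ∀ a ∈ l, a ∈ M)
    (y : H →L[ℂ] H) (hy : y ∈ M) : ∀ w ∈ fam l y, w ∈ M := by
  induction l generalizing y with
  | nil =>
    intro w hw
    simp only [fam, List.mem_singleton] at hw
    rw [hw]; exact hy
  | cons a l ih =>
    intro w hw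
    have ha : a ∈ M := hl a (by simp)
    have hIa : Complex.I • a ∈ M := M.toStarSubalgebra.smul_mem ha _
    have ih' := ih (fun b hb => hl b (by simp [hb]))
    simp only [fam, List.mem_append] at hw
    rcases hw with ((hw | hw) | hw) | hw
    · exact ih' _ (add_mem hy ha) w hw
    · exact ih' _ (sub_mem hy ha) w hw
    · exact ih' _ (add_mem hy hIa) w hw
    · exact ih' _ (sub_mem hy hIa) w hw

lemma fam_lin (S : H →L[ℂ] H) (ξ : H) (l : List (H →L[ℂ] H)) (y : H →L[ℂ] H) :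
    sm (fam l y) (fun w => ‖S (w ξ)‖ ^ 2) =
      4 ^ l.length * (‖S (y ξ)‖ ^ 2 + sm l (fun a => ‖S (a ξ)‖ ^ 2)) := by
  induction l generalizing y with
  | nil => simp [fam]
  | cons a l ih =>
    rw [sm_fam_cons]
    simp only [ih, sm_cons, List.length_cons]
    have h1 := par (S (y ξ)) (S (a ξ))
    have h2 := par (S (y ξ)) (Complex.I • S (a ξ))
    rw [normI] at h2
    simp only [ContinuousLinearMap.add_apply, ContinuousLinearMap.sub_apply,
      ContinuousLinearMap.smul_apply, map_add, map_sub, map_smul]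
    rw [pow_succ]
    linear_combination (4 ^ l.length : ℝ) * h1 + (4 ^ l.length : ℝ) * h2

lemma fam_star (G : (H →L[ℂ] H) → ℝ) (l : List (H →L[ℂ] H)) (y : H →L[ℂ] H) :
    sm (fam l y) (fun w => G (star w)) = sm (fam (l.map star) (star y)) G := by
  induction l generalizing y with
  | nil => simp [fam]
  | cons a l ih =>
    rw [List.map_cons, sm_fam_cons, sm_fam_cons]
    simp only [ih, star_add, star_sub, star_smul, Complex.star_def, Complex.conj_I, neg_smul,
      sub_neg_eq_add]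
    rw [← sub_eq_add_neg]
    ring

/-- the operator `∑ a* a` -/
noncomputable def Rop : List (H →L[ℂ] H) → (H →L[ℂ] H)
  | [] => 0
  | a :: l => star a * a + Rop l

/-- off diagonal terms -/
noncomputable def Tof (v : H) : List (H →L[ℂ] H) → ℝ
  | [] => 0
  | a :: l => Tof v l + sm l (fun b => ‖(star a) (b v)‖ ^ 2) + sm l (fun b => ‖(star b) (a v)‖ ^ 2)

lemma quad (X B C : H) : ‖X + B + C‖ ^ 2 + ‖X - B - C‖ ^ 2 + ‖X + Complex.I • B - Complex.I • C‖ ^ 2 +
    ‖X - Complex.I • B + Complex.I • C‖ ^ 2 = 4 * (‖X‖ ^ 2 + ‖B‖ ^ 2 + ‖C‖ ^ 2) := by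
  have h1 := par X (B + C)
  have h2 := par X (Complex.I • (B - C))
  have h3 := par B C
  rw [normI] at h2
  have e1 : X + B + C = X + (B + C) := by abel
  have e2 : X - B - C = X - (B + C) := by abel
  have e3 : X + Complex.I • B - Complex.I • C = X + Complex.I • (B - C) := by
    rw [smul_sub]; abel
  have e4 : X - Complex.I • B + Complex.I • C = X - Complex.I • (B - C) := by
    rw [smul_sub]; abel
  rw [e1, e2, e3, e4]
  linarith

lemma fam_quad (v : H) (l : List (H →L[ℂ] H)) (y P : H →L[ℂ] H) :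
    sm (fam l y) (fun w => ‖(star w * w + P) v‖ ^ 2) =
      4 ^ l.length * (‖(star y * y + P + Rop l) v‖ ^ 2 + sm l (fun a => ‖(star y) (a v)‖ ^ 2) +
        sm l (fun a => ‖(star a) (y v)‖ ^ 2) + Tof v l) := by
  induction l generalizing y with
  | nil => simp [fam, Rop, Tof]
  | cons a l ih =>
    rw [sm_fam_cons]
    simp only [ih, sm_cons, List.length_cons, Rop, Tof]
    have hq := quad ((star y * y + P + (star a * a + Rop l)) v) ((star y) (a v)) ((star a) (y v))
    have hI : Complex.I * Complex.I = -1 := Complex.I_mul_I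
    -- the four points
    have e1 : (star (y + a) * (y + a) + P + Rop l) v =
        (star y * y + P + (star a * a + Rop l)) v + (star y) (a v) + (star a) (y v) := by
      rw [star_add, add_mul, mul_add, mul_add]
      simp only [ContinuousLinearMap.add_apply, mapp]
      abel
    have e2 : (star (y - a) * (y - a) + P + Rop l) v =
        (star y * y + P + (star a * a + Rop l)) v - (star y) (a v) - (star a) (y v) := by
      rw [star_sub, sub_mul, mul_sub, mul_sub]
      simp only [ContinuousLinearMap.add_apply, ContinuousLinearMap.sub_apply,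
        mapp]
      abel
    have e3 : (star (y + Complex.I • a) * (y + Complex.I • a) + P + Rop l) v =
        (star y * y + P + (star a * a + Rop l)) v + Complex.I • (star y) (a v) -
          Complex.I • (star a) (y v) := by
      rw [star_add, star_smul, add_mul, mul_add, mul_add]
      simp only [Complex.star_def, Complex.conj_I, neg_smul, smul_mul_assoc, mul_smul_comm,
        neg_mul, smul_smul, hI, ContinuousLinearMap.add_apply, ContinuousLinearMap.neg_apply,
        ContinuousLinearMap.smul_apply, mapp, one_smul]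
      simp only [smul_neg, neg_neg, smul_smul, hI, neg_smul, one_smul]
      abel
    have e4 : (star (y - Complex.I • a) * (y - Complex.I • a) + P + Rop l) v =
        (star y * y + P + (star a * a + Rop l)) v - Complex.I • (star y) (a v) +
          Complex.I • (star a) (y v) := by
      rw [star_sub, star_smul, sub_mul, mul_sub, mul_sub]
      simp only [Complex.star_def, Complex.conj_I, neg_smul, smul_mul_assoc, mul_smul_comm,
        neg_mul, smul_smul, hI, ContinuousLinearMap.add_apply, ContinuousLinearMap.sub_apply,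
        ContinuousLinearMap.neg_apply,
        ContinuousLinearMap.smul_apply, mapp, one_smul]
      simp only [smul_neg, neg_neg, smul_smul, hI, neg_smul, one_smul]
      abel
    rw [e1, e2, e3, e4]
    -- the linear sums
    have f1 : sm l (fun b => ‖(star (y + a)) (b v)‖ ^ 2) + sm l (fun b => ‖(star (y - a)) (b v)‖ ^ 2)
        + sm l (fun b => ‖(star (y + Complex.I • a)) (b v)‖ ^ 2)
        + sm l (fun b => ‖(star (y - Complex.I • a)) (b v)‖ ^ 2) =
        4 * (sm l (fun b => ‖(star y) (b v)‖ ^ 2) + sm l (fun b => ‖(star a) (b v)‖ ^ 2)) := by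
      rw [← sm_add, ← sm_add, ← sm_add, ← sm_add, ← sm_mul]
      refine sm_congr l (fun b => ?_)
      have g1 := par ((star y) (b v)) ((star a) (b v))
      have g2 := par ((star y) (b v)) (Complex.I • (star a) (b v))
      rw [normI] at g2
      simp only [star_add, star_sub, star_smul, Complex.star_def, Complex.conj_I, neg_smul,
        sub_neg_eq_add, ContinuousLinearMap.add_apply, ContinuousLinearMap.sub_apply,
        ContinuousLinearMap.neg_apply, ContinuousLinearMap.smul_apply, ← sub_eq_add_neg]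
      linarith
    have f2 : sm l (fun b => ‖(star b) ((y + a) v)‖ ^ 2) + sm l (fun b => ‖(star b) ((y - a) v)‖ ^ 2)
        + sm l (fun b => ‖(star b) ((y + Complex.I • a) v)‖ ^ 2)
        + sm l (fun b => ‖(star b) ((y - Complex.I • a) v)‖ ^ 2) =
        4 * (sm l (fun b => ‖(star b) (y v)‖ ^ 2) + sm l (fun b => ‖(star b) (a v)‖ ^ 2)) := by
      rw [← sm_add, ← sm_add, ← sm_add, ← sm_add, ← sm_mul]
      refine sm_congr l (fun b => ?_)
      have g1 := par ((star b) (y v)) ((star b) (a v))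
      have g2 := par ((star b) (y v)) (Complex.I • (star b) (a v))
      rw [normI] at g2
      simp only [ContinuousLinearMap.add_apply, ContinuousLinearMap.sub_apply,
        ContinuousLinearMap.smul_apply, map_add, map_sub, map_smul]
      linarith
    rw [pow_succ]
    linear_combination (4 ^ l.length : ℝ) * hq + (4 ^ l.length : ℝ) * f1 +
      (4 ^ l.length : ℝ) * f2

lemma Tof_le (v : H) (l : List (H →L[ℂ] H)) :
    Tof v l ≤ sm l (fun a => sm l (fun b => ‖(star b) (a v)‖ ^ 2)) := by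
  induction l with
  | nil => simp [Tof]
  | cons a l ih =>
    simp only [Tof, sm_cons]
    rw [sm_add]
    have h1 : 0 ≤ ‖(star a) (a v)‖ ^ 2 := by positivity
    linarith

lemma Rop_inner (v w : H) (l : List (H →L[ℂ] H)) :
    (⟪w, Rop l v⟫_ℂ).re ≤ (sm l (fun a => ‖a v‖ ^ 2) + sm l (fun a => ‖a w‖ ^ 2)) / 2 := by
  induction l with
  | nil => simp [Rop]
  | cons a l ih =>
    simp only [Rop, sm_cons, ContinuousLinearMap.add_apply, mapp,
      inner_add_right, Complex.add_re]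
    have h1 : (⟪w, (star a) (a v)⟫_ℂ).re ≤ ‖a w‖ * ‖a v‖ := by
      rw [ContinuousLinearMap.star_eq_adjoint, ContinuousLinearMap.adjoint_inner_right]
      exact re_inner_le_norm (𝕜 := ℂ) (a w) (a v)
    nlinarith [sq_nonneg (‖a w‖ - ‖a v‖)]

lemma Rop_le (v : H) (l : List (H →L[ℂ] H)) (h : ∀ v : H, sm l (fun a => ‖a v‖ ^ 2) ≤ ‖v‖ ^ 2) :
    ‖Rop l v‖ ^ 2 ≤ ‖v‖ ^ 2 := by
  have h1 := Rop_inner v (Rop l v) l
  have h2 : (⟪Rop l v, Rop l v⟫_ℂ).re = ‖Rop l v‖ ^ 2 := by
    rw [inner_self_eq_norm_sq_to_K]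
    norm_cast
  rw [h2] at h1
  have h3 := h v
  have h4 := h (Rop l v)
  linarith

/-- **the fourth moment** -/
lemma moment (v : H) (l : List (H →L[ℂ] H)) (h : ∀ v : H, sm l (fun a => ‖a v‖ ^ 2) ≤ ‖v‖ ^ 2)
    (h' : ∀ v : H, sm l (fun a => ‖(star a) v‖ ^ 2) ≤ ‖v‖ ^ 2) :
    sm (fam l 0) (fun w => ‖(star w * w) v‖ ^ 2) ≤ 4 ^ l.length * (2 * ‖v‖ ^ 2) := by
  have h1 := fam_quad v l 0 0
  simp only [add_zero, star_zero, zero_mul, zero_add, ContinuousLinearMap.zero_apply, norm_zero,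
    map_zero] at h1
  have h0 : sm l (fun _ : H →L[ℂ] H => ((0 : ℝ)) ^ 2) = 0 := by rw [sm_const]; simp
  rw [h0] at h1
  rw [h1]
  have h2 := Rop_le v l h
  have h3 := Tof_le v l
  have h4 : sm l (fun a => sm l (fun b => ‖(star b) (a v)‖ ^ 2)) ≤ ‖v‖ ^ 2 :=
    (sm_mono l (fun a _ => h' (a v))).trans (h v)
  have h5 : (0 : ℝ) < 4 ^ l.length := by positivity
  apply mul_le_mul_of_nonneg_left _ h5.le
  linarith

/-- truncation -/
lemma trunc2 (M : VonNeumannAlgebra H) (y : H →L[ℂ] H) (hy : y ∈ M) :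
    ∃ y1 ∈ M, ∃ y2 ∈ M, y = y1 + y2 ∧ ‖y1‖ ^ 2 ≤ 2 ∧
      (∀ v, ‖y2 v‖ ^ 2 ≤ 1 / 32 * ‖(star y * y) v‖ ^ 2) ∧
      (∀ v, ‖(star y2) v‖ ^ 2 ≤ 1 / 32 * ‖(y * star y) v‖ ^ 2) := by
  set z : H →L[ℂ] H := star y * y with hz
  set k : ℝ := 1 / 8 with hk
  have hk0 : 0 < k := by positivity
  have hzM : z ∈ M := mul_mem (star_mem hy) hy
  have hzpos : 0 ≤ z := star_mul_self_nonneg y
  have hge : (1 : H →L[ℂ] H) ≤ 1 + k • z := le_add_of_nonneg_right (smul_nonneg hk0.le hzpos)
  have hunit : IsUnit (1 + k • z) := CStarAlgebra.isUnit_of_le 1 hge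
  obtain ⟨U, hU⟩ := hunit
  set f : H →L[ℂ] H := ((U⁻¹ : (H →L[ℂ] H)ˣ) : H →L[ℂ] H) with hf
  have hUf : (1 + k • z) * f = 1 := by rw [← hU]; exact U.mul_inv
  have hfU : f * (1 + k • z) = 1 := by rw [← hU]; exact U.inv_mul
  have hkz : k • z = ((k : ℂ)) • z := by
    ext v
    simp
  have hmem : 1 + k • z ∈ M := by
    rw [hkz]
    exact add_mem (one_mem M) (M.toStarSubalgebra.smul_mem hzM (k : ℂ))
  have hfM : f ∈ M := Pool.Agent.W82.KKS.inv_mem_vn M hmem hUf hfU
  have hsz : star z = z := by rw [hz, star_mul, star_star]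
  have hs1 : star (1 + k • z) = 1 + k • z := by
    rw [star_add, star_one, star_smul, hsz]; simp
  -- f is selfadjoint
  have hsf : star f = f := by
    have h1 : star f * (1 + k • z) = 1 := by
      have := congrArg star hUf
      rwa [star_mul, star_one, hs1] at this
    calc star f = star f * ((1 + k • z) * f) := by rw [hUf, mul_one]
      _ = (star f * (1 + k • z)) * f := by rw [mul_assoc]
      _ = f := by rw [h1, one_mul]
  -- commutation
  have hcomm : z * f = f * z := by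
    have h1 : z * (1 + k • z) = (1 + k • z) * z := by
      rw [mul_add, add_mul, mul_one, one_mul, mul_smul_comm, smul_mul_assoc]
    calc z * f = (f * (1 + k • z)) * z * f := by rw [hfU, one_mul]
      _ = f * ((1 + k • z) * z) * f := by rw [mul_assoc f]
      _ = f * (z * (1 + k • z)) * f := by rw [h1]
      _ = f * z * ((1 + k • z) * f) := by simp only [mul_assoc]
      _ = f * z := by rw [hUf, mul_one]
  -- the bound
  have hb : ∀ v : H, ‖(y * f) v‖ ^ 2 ≤ 2 * ‖v‖ ^ 2 := by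
    intro v
    set u : H := f v with hu
    have hv : v = u + k • z u := by
      have h1 : v = ((1 + k • z) * f) v := by rw [hUf]; rfl
      rw [h1]
      rfl
    have h1 : ‖y u‖ ^ 2 = (⟪z u, u⟫_ℂ).re := by
      rw [hz]
      change _ = (⟪(star y) (y u), u⟫_ℂ).re
      rw [ContinuousLinearMap.star_eq_adjoint, ContinuousLinearMap.adjoint_inner_left]
      rw [inner_self_eq_norm_sq_to_K]
      norm_cast
    have h2 : ‖v‖ ^ 2 = ‖u‖ ^ 2 + 2 * (k * (⟪z u, u⟫_ℂ).re) + (k * ‖z u‖) ^ 2 := by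
      rw [hv, norm_add_sq (𝕜 := ℂ), norm_smul, Real.norm_of_nonneg hk0.le]
      have h3 : RCLike.re ⟪u, k • z u⟫_ℂ = k * (⟪z u, u⟫_ℂ).re := by
        have h4 : k • z u = (k : ℂ) • z u := by simp
        rw [h4, inner_smul_right]
        have h5 : (⟪u, z u⟫_ℂ).re = (⟪z u, u⟫_ℂ).re := inner_re_symm (𝕜 := ℂ) u (z u)
        change ((k : ℂ) * ⟪u, z u⟫_ℂ).re = _
        rw [Complex.re_ofReal_mul, h5]
      rw [h3]
    have h3 : (⟪z u, u⟫_ℂ).re ≤ ‖z u‖ * ‖u‖ := re_inner_le_norm (𝕜 := ℂ) (z u) u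
    have h5 : 4 * k * (⟪z u, u⟫_ℂ).re ≤ ‖v‖ ^ 2 := by
      rw [h2]
      nlinarith [sq_nonneg (‖u‖ - k * ‖z u‖), mul_le_mul_of_nonneg_left h3 hk0.le]
    change ‖y u‖ ^ 2 ≤ _
    rw [h1]
    rw [hk] at h5
    linarith
  have hbn : ‖y * f‖ ≤ Real.sqrt 2 := by
    refine ContinuousLinearMap.opNorm_le_bound _ (Real.sqrt_nonneg _) (fun v => ?_)
    have h1 := hb v
    have h2 : (Real.sqrt 2 * ‖v‖) ^ 2 = 2 * ‖v‖ ^ 2 := by
      rw [mul_pow, Real.sq_sqrt (by norm_num)]
    rw [← h2] at h1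
    exact le_of_sq_le_sq h1 (by positivity)
  have hbs : ∀ v : H, ‖(f * star y) v‖ ^ 2 ≤ 2 * ‖v‖ ^ 2 := by
    intro v
    have h1 : f * star y = star (y * f) := by rw [star_mul, hsf]
    have h2 : ‖(f * star y) v‖ ≤ Real.sqrt 2 * ‖v‖ := by
      refine (ContinuousLinearMap.le_opNorm _ _).trans ?_
      rw [h1, norm_star]
      exact mul_le_mul_of_nonneg_right hbn (norm_nonneg _)
    have h3 : (Real.sqrt 2 * ‖v‖) ^ 2 = 2 * ‖v‖ ^ 2 := by
      rw [mul_pow, Real.sq_sqrt (by norm_num)]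
    rw [← h3]
    exact pow_le_pow_left₀ (norm_nonneg _) h2 2
  have hdiff : y - y * f = (y * f) * (k • z) := by
    have h1 : f + f * (k • z) = 1 := by
      rw [← mul_one_add] at *
      exact hfU
    have h2 : y = y * (f + f * (k • z)) := by rw [h1, mul_one]
    calc y - y * f = y * (f + f * (k • z)) - y * f := by rw [← h2]
      _ = (y * f) * (k • z) := by rw [mul_add, mul_assoc]; abel
  refine ⟨y * f, mul_mem hy hfM, y - y * f, sub_mem hy (mul_mem hy hfM), by abel, ?_, ?_, ?_⟩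
  · calc ‖y * f‖ ^ 2 ≤ (Real.sqrt 2) ^ 2 := pow_le_pow_left₀ (norm_nonneg _) hbn 2
      _ = 2 := Real.sq_sqrt (by norm_num)
  · intro v
    rw [hdiff]
    have h1 : ((y * f) * (k • z)) v = (y * f) (k • z v) := rfl
    rw [h1]
    refine (hb _).trans ?_
    rw [norm_smul, Real.norm_of_nonneg hk0.le, hk]
    nlinarith [sq_nonneg ‖z v‖]
  · intro v
    rw [hdiff]
    have h1 : star ((y * f) * (k • z)) = (f * star y) * (k • (y * star y)) := by
      rw [star_mul, star_mul, star_smul, hsz, hsf]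
      simp only [star_trivial, smul_mul_assoc, mul_smul_comm]
      congr 1
      calc z * (f * star y) = (z * f) * star y := (mul_assoc _ _ _).symm
        _ = f * (star y * y) * star y := by rw [hcomm]
        _ = (f * star y) * (y * star y) := by simp only [mul_assoc]
    rw [h1]
    have h2 : ((f * star y) * (k • (y * star y))) v = (f * star y) (k • (y * star y) v) := rfl
    rw [h2]
    refine (hbs _).trans ?_
    rw [norm_smul, Real.norm_of_nonneg hk0.le, hk]
    nlinarith [sq_nonneg ‖(y * star y) v‖]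

/-- the claim with constant `C`, for lists -/
def PC (M : VonNeumannAlgebra H) (ξ : H) (S : H →L[ℂ] H) (C : ℝ) : Prop :=
  ∀ l : List (H →L[ℂ] H), (∀ a ∈ l, a ∈ M) → (∀ v : H, sm l (fun a => ‖a v‖ ^ 2) ≤ ‖v‖ ^ 2) →
    (∀ v : H, sm l (fun a => ‖(star a) v‖ ^ 2) ≤ ‖v‖ ^ 2) → sm l (fun a => ‖S (a ξ)‖ ^ 2) ≤ C

lemma step (M : VonNeumannAlgebra H) (ξ : H) (S : H →L[ℂ] H) (D : ℝ) 
    (hS : ∀ a ∈ M, ‖S (a ξ)‖ ≤ D * ‖a‖) (C : ℝ) (hC : 0 ≤ C) (h : PC M ξ S C) :
    PC M ξ S (4 * D ^ 2 + C / 2) := by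
  classical
  intro l hl h1 h2
  choose! y1 hy1 y2 hy2 he hn1 hn2 hn3 using (trunc2 M)
  set n := l.length with hn
  have h4 : (0 : ℝ) < 4 ^ n := by positivity
  have hmem := fam_mem M l hl 0 (zero_mem M)
  -- the new family
  set g : (H →L[ℂ] H) → (H →L[ℂ] H) := fun w => (((4 / 2 ^ n : ℝ)) : ℂ) • y2 w with hg
  have hc : ‖(((4 / 2 ^ n : ℝ)) : ℂ)‖ ^ 2 = 16 / 4 ^ n := by
    rw [Complex.norm_real, Real.norm_of_nonneg (by positivity), div_pow, ← pow_mul, mul_comm n 2,
      pow_mul]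
    norm_num
  have hgn : ∀ w : H →L[ℂ] H, ∀ v : H, ‖g w v‖ ^ 2 = 16 / 4 ^ n * ‖y2 w v‖ ^ 2 := by
    intro w v
    rw [hg]
    simp only [ContinuousLinearMap.smul_apply]
    rw [norm_smul, mul_pow, hc]
  have hgs : ∀ w : H →L[ℂ] H, ∀ v : H, ‖(star (g w)) v‖ ^ 2 = 16 / 4 ^ n * ‖(star (y2 w)) v‖ ^ 2 := by
    intro w v
    rw [hg]
    simp only [star_smul, ContinuousLinearMap.smul_apply]
    rw [norm_smul, mul_pow, norm_star, hc]
  have hgS : ∀ w : H →L[ℂ] H, ‖S (g w ξ)‖ ^ 2 = 16 / 4 ^ n * ‖S (y2 w ξ)‖ ^ 2 := by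
    intro w
    rw [hg]
    simp only [ContinuousLinearMap.smul_apply, map_smul]
    rw [norm_smul, mul_pow, hc]
  have hnew := h ((fam l 0).map g) (by
      intro a ha
      rw [List.mem_map] at ha
      obtain ⟨w, hw, rfl⟩ := ha
      exact M.toStarSubalgebra.smul_mem (hy2 w (hmem w hw)) _) (by
      intro v
      rw [sm_map]
      calc sm (fam l 0) (fun w => ‖g w v‖ ^ 2)
          ≤ sm (fam l 0) (fun w => 16 / 4 ^ n * (1 / 32) * ‖(star w * w) v‖ ^ 2) := by
            refine sm_mono _ (fun w hw => ?_)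
            rw [hgn, mul_assoc]
            exact mul_le_mul_of_nonneg_left (hn2 w (hmem w hw) v) (by positivity)
        _ = 16 / 4 ^ n * (1 / 32) * sm (fam l 0) (fun w => ‖(star w * w) v‖ ^ 2) := sm_mul _ _ _
        _ ≤ 16 / 4 ^ n * (1 / 32) * (4 ^ n * (2 * ‖v‖ ^ 2)) :=
            mul_le_mul_of_nonneg_left (moment v l h1 h2) (by positivity)
        _ = ‖v‖ ^ 2 := by field_simp; ring) (by
      intro v
      rw [sm_map]
      have hst : sm (fam l 0) (fun w => ‖(w * star w) v‖ ^ 2) ≤ 4 ^ n * (2 * ‖v‖ ^ 2) := by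
        have e1 : sm (fam l 0) (fun w => ‖(w * star w) v‖ ^ 2) =
            sm (fam (l.map star) 0) (fun w => ‖(star w * w) v‖ ^ 2) := by
          have := fam_star (fun w : H →L[ℂ] H => ‖(star w * w) v‖ ^ 2) l 0
          simp only [star_star, star_zero] at this
          exact this
        rw [e1]
        have := moment v (l.map star) (by
          intro v; rw [sm_map]; exact h2 v) (by
          intro v; rw [sm_map]; simp only [star_star]; exact h1 v)
        rw [List.length_map] at this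
        exact this
      calc sm (fam l 0) (fun w => ‖(star (g w)) v‖ ^ 2)
          ≤ sm (fam l 0) (fun w => 16 / 4 ^ n * (1 / 32) * ‖(w * star w) v‖ ^ 2) := by
            refine sm_mono _ (fun w hw => ?_)
            rw [hgs, mul_assoc]
            exact mul_le_mul_of_nonneg_left (hn3 w (hmem w hw) v) (by positivity)
        _ = 16 / 4 ^ n * (1 / 32) * sm (fam l 0) (fun w => ‖(w * star w) v‖ ^ 2) := sm_mul _ _ _
        _ ≤ 16 / 4 ^ n * (1 / 32) * (4 ^ n * (2 * ‖v‖ ^ 2)) :=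
            mul_le_mul_of_nonneg_left hst (by positivity)
        _ = ‖v‖ ^ 2 := by field_simp; ring)
  rw [sm_map] at hnew
  simp only [hgS] at hnew
  rw [sm_mul] at hnew
  have hlin := fam_lin S ξ l 0
  simp only [ContinuousLinearMap.zero_apply, map_zero, norm_zero] at hlin
  have hkey : sm (fam l 0) (fun w => ‖S (w ξ)‖ ^ 2) ≤
      sm (fam l 0) (fun w => 4 * D ^ 2 + 2 * ‖S (y2 w ξ)‖ ^ 2) := by
    refine sm_mono _ (fun w hw => ?_)
    have hw' := hmem w hw
    have e1 : S (w ξ) = S (y1 w ξ) + S (y2 w ξ) := by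
      conv_lhs => rw [he w hw']
      simp
    have e2 : ‖S (w ξ)‖ ≤ ‖S (y1 w ξ)‖ + ‖S (y2 w ξ)‖ := by rw [e1]; exact norm_add_le _ _
    have e3 : ‖S (y1 w ξ)‖ ^ 2 ≤ D ^ 2 * 2 := by
      calc ‖S (y1 w ξ)‖ ^ 2 ≤ (D * ‖y1 w‖) ^ 2 :=
            pow_le_pow_left₀ (norm_nonneg _) (hS _ (hy1 w hw')) 2
        _ = D ^ 2 * ‖y1 w‖ ^ 2 := by ring
        _ ≤ D ^ 2 * 2 := mul_le_mul_of_nonneg_left (hn1 w hw') (by positivity)
    have e4 : ‖S (w ξ)‖ ^ 2 ≤ (‖S (y1 w ξ)‖ + ‖S (y2 w ξ)‖) ^ 2 :=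
      pow_le_pow_left₀ (norm_nonneg _) e2 2
    nlinarith [sq_nonneg (‖S (y1 w ξ)‖ - ‖S (y2 w ξ)‖)]
  rw [sm_add, sm_const, sm_mul, fam_length, hlin] at hkey
  have e5 : 16 / 4 ^ n * sm (fam l 0) (fun w => ‖S (y2 w ξ)‖ ^ 2) * 4 ^ n =
      16 * sm (fam l 0) (fun w => ‖S (y2 w ξ)‖ ^ 2) := by field_simp
  have e6 : 16 * sm (fam l 0) (fun w => ‖S (y2 w ξ)‖ ^ 2) ≤ C * 4 ^ n := by
    rw [← e5]; exact mul_le_mul_of_nonneg_right hnew h4.le
  have e7 : 4 ^ n * sm l (fun a => ‖S (a ξ)‖ ^ 2) ≤ 4 ^ n * (4 * D ^ 2 + C / 2) := by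
    have e8 : 0 ≤ C * 4 ^ n := by positivity
    norm_num at hkey
    nlinarith
  exact le_of_mul_le_mul_left e7 h4

theorem lg1 : S_LG1 := by
  intro H _ _ _ M ξ ρ hStd S D hD hS n a ha h1 h2
  have hbase : PC M ξ S (‖S‖ ^ 2) := by
    intro l hl h1 h2
    calc sm l (fun a => ‖S (a ξ)‖ ^ 2) ≤ sm l (fun a => ‖S‖ ^ 2 * ‖a ξ‖ ^ 2) := by
          refine sm_mono _ (fun b _ => ?_)
          rw [← mul_pow]
          exact pow_le_pow_left₀ (norm_nonneg _) (S.le_opNorm _) 2
      _ = ‖S‖ ^ 2 * sm l (fun a => ‖a ξ‖ ^ 2) := sm_mul _ _ _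
      _ ≤ ‖S‖ ^ 2 * ‖ξ‖ ^ 2 := mul_le_mul_of_nonneg_left (h1 ξ) (by positivity)
      _ = ‖S‖ ^ 2 := by rw [hStd.unit]; ring
  have hiter : ∀ k : ℕ, PC M ξ S (8 * D ^ 2 + ‖S‖ ^ 2 * (1 / 2) ^ k) := by
    intro k
    induction k with
    | zero =>
      intro l hl h1 h2
      have := hbase l hl h1 h2
      have h3 : 0 ≤ D ^ 2 := by positivity
      simp only [pow_zero, mul_one]
      linarith
    | succ k ih =>
      have := step M ξ S D hS _ (by positivity) ih
      have e : 4 * D ^ 2 + (8 * D ^ 2 + ‖S‖ ^ 2 * (1 / 2) ^ k) / 2 =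
          8 * D ^ 2 + ‖S‖ ^ 2 * (1 / 2) ^ (k + 1) := by rw [pow_succ]; ring
      rw [e] at this
      exact this
  have hfin : ∀ k : ℕ, ∑ i, ‖S (a i ξ)‖ ^ 2 ≤ 8 * D ^ 2 + ‖S‖ ^ 2 * (1 / 2) ^ k := by
    intro k
    have := hiter k (List.ofFn a) (by
      intro b hb
      rw [List.mem_ofFn] at hb
      obtain ⟨i, rfl⟩ := hb
      exact ha i) (by
      intro v
      have e : sm (List.ofFn a) (fun a => ‖a v‖ ^ 2) = ∑ i, ‖a i v‖ ^ 2 := by
        unfold sm; rw [List.map_ofFn, List.sum_ofFn]; rfl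
      rw [e]; exact h1 v) (by
      intro v
      have e : sm (List.ofFn a) (fun a => ‖(star a) v‖ ^ 2) = ∑ i, ‖(star (a i)) v‖ ^ 2 := by
        unfold sm; rw [List.map_ofFn, List.sum_ofFn]; rfl
      rw [e]; exact h2 v)
    have e : sm (List.ofFn a) (fun a => ‖S (a ξ)‖ ^ 2) = ∑ i, ‖S (a i ξ)‖ ^ 2 := by
      unfold sm; rw [List.map_ofFn, List.sum_ofFn]; rfl
    rw [e] at this
    exact this
  have hlim : Filter.Tendsto (fun k : ℕ => 8 * D ^ 2 + ‖S‖ ^ 2 * (1 / 2 : ℝ) ^ k) Filter.atTop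
      (nhds (8 * D ^ 2 + ‖S‖ ^ 2 * 0)) :=
    ((tendsto_pow_atTop_nhds_zero_of_lt_one (by norm_num) (by norm_num)).const_mul _).const_add _
  rw [mul_zero, add_zero] at hlim
  exact ge_of_tendsto' hlim hfin

end Pool.Agent.W407.KKS
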